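import Mathlib
import Pool.Agent.H77.BC.Final

/-!
# MP_b99905_lc: Problem BC is NP-hard

Problem BC: given a graph `G` by its vertex list and its edge list, and a number `k` in binary, is
the circular bundled crossing number of `G` at most `k`? Every language in NP reduces to it in
polynomial time (many-one). Layouts, bundled crossings and the number `bc` are defined in
`Pool.Agent.H77.BC.Def0`.
-/

set_option autoImplicit false

namespace Pool.Agent.Results.MP_b99905_lc.BundledCrossingHard

open Turing Computability

/-! ### Instances -/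

/-- An instance: vertex list, edge list, bound `k`. -/
abbrev Instance : Type := List ℕ × List (ℕ × ℕ) × ℕ

/-- The vertex list has no repetitions, and each edge joins two distinct listed vertices. -/
def WellFormed (I : Instance) : Prop :=
  I.1.Nodup ∧ ∀ e ∈ I.2.1, e.1 ∈ I.1 ∧ e.2 ∈ I.1 ∧ e.1 ≠ e.2

/-- The graph with the given vertex list and edge list. -/
def graphOf (I : Instance) : SimpleGraph {v : ℕ // v ∈ I.1} where
  Adj u v := u ≠ v ∧ ((u.1, v.1) ∈ I.2.1 ∨ (v.1, u.1) ∈ I.2.1)
  symm := ⟨fun _ _ h => ⟨h.1.symm, h.2.symm⟩⟩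
  loopless := ⟨fun _ h => h.1 rfl⟩

/-- Code of a bit: `1` is written `100` and `0` is written `0`. -/
def bitCode (b : Bool) : List Bool := if b then [true, false, false] else [false]

/-- Code of a list: `1` in front of each entry, and `0` at the end. -/
def listCode {α : Type} (f : α → List Bool) (l : List α) : List Bool :=
  (l.flatMap fun x => true :: f x) ++ [false]

/-- Code of a natural number: the list of its binary digits. -/
def natCode (n : ℕ) : List Bool := listCode bitCode n.bits

/-- Code of a pair of natural numbers. -/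
def pairCode (e : ℕ × ℕ) : List Bool := true :: (natCode e.1 ++ natCode e.2)

/-- Code of an instance: vertex list, edge list and bound, all numbers in binary. -/
def instCode (I : Instance) : List Bool :=
  true :: (listCode natCode I.1 ++ true :: (listCode pairCode I.2.1 ++ natCode I.2.2))

/-- The language of Problem BC: the codes of the well-formed instances `(G, k)` such that the
circular bundled crossing number of `G` is at most `k`. -/
def BC : Set (List Bool) :=
  {s | ∃ I : Instance, WellFormed I ∧ Pool.Agent.H77.BC.bc (graphOf I) ≤ I.2.2 ∧ s = instCode I}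

/-! ### NP-hardness -/

/-- The pair `(x, u)` of words is written as the word `x`, a separator, the word `u`. -/
def pairEnc (p : List Bool × List Bool) : List (Option Bool) :=
  p.1.map some ++ none :: p.2.map some

/-- A language is in NP if it has a polynomial-time verifier with certificates of polynomially
bounded length. -/
def InNP (L : Set (List Bool)) : Prop :=
  ∃ (p : Polynomial ℕ) (V : List Bool × List Bool → Bool),
    Nonempty (TM2ComputableInPolyTime pairEnc encodeBool V) ∧
    ∀ x, x ∈ L ↔ ∃ u : List Bool, u.length ≤ p.eval x.length ∧ V (x, u) = true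

/-- Polynomial-time many-one reducibility of languages. -/
def PolyReducible (L L' : Set (List Bool)) : Prop :=
  ∃ f : List Bool → List Bool,
    Nonempty (TM2ComputableInPolyTime (id : List Bool → List Bool)
      (id : List Bool → List Bool) f) ∧ ∀ x, x ∈ L ↔ f x ∈ L'

/-- NP-hardness under polynomial-time many-one reductions. -/
def NPHard (L' : Set (List Bool)) : Prop := ∀ L, InNP L → PolyReducible L L'

/-! ### Checks of the definitions -/

/-- Every finite graph has a simple circular layout with a bundling, so the minimum in the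
definition of `bc` is attained. -/
theorem bc_attained {V : Type} [Fintype V] (G : SimpleGraph V) :
    Pool.Agent.H77.BC.HasBundling G (Pool.Agent.H77.BC.bc G) :=
  Pool.Agent.H77.BC.bc_spec G

/-- In a simple layout the crossing point of a pair of edges in a grid is the only common point of
the two edges. -/
theorem grid_point_unique {V : Type} {G : SimpleGraph V} {K : Sym2 V → Set ℂ}
    (hS : Pool.Agent.H77.BC.IsSimple G K) {p q : ℕ} {a : Fin p → Sym2 V} {b : Fin q → Sym2 V}
    {φ : ℝ × ℝ → ℂ} (h : Pool.Agent.H77.BC.IsGrid G K a b φ) (i : Fin p) (j : Fin q) :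
    K (a i) ∩ K (b j) = {φ ((i : ℝ) + 1, (j : ℝ) + 1)} := by
  have hr : ((i : ℝ) + 1, (j : ℝ) + 1) ∈ Pool.Agent.H77.BC.rect p q := by
    have hi : ((i : ℕ) : ℝ) + 1 ≤ p := by exact_mod_cast i.2
    have hj : ((j : ℕ) : ℝ) + 1 ≤ q := by exact_mod_cast j.2
    have hi0 : (0 : ℝ) ≤ ((i : ℕ) : ℝ) := Nat.cast_nonneg _
    have hj0 : (0 : ℝ) ≤ ((j : ℕ) : ℝ) := Nat.cast_nonneg _
    refine ⟨⟨?_, ?_⟩, ⟨?_, ?_⟩⟩ <;> dsimp only <;> linarith
  have h1 : φ ((i : ℝ) + 1, (j : ℝ) + 1) ∈ K (a i) ∩ K (b j) :=
    ⟨(h.mem_iff _ hr _ (h.mem_a i)).2 (Or.inl ⟨i, rfl, rfl⟩),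
      (h.mem_iff _ hr _ (h.mem_b j)).2 (Or.inr ⟨j, rfl, rfl⟩)⟩
  exact Set.eq_singleton_iff_unique_mem.2
    ⟨h1, fun z hz => hS _ (h.mem_a i) _ (h.mem_b j) (h.ne i j) hz h1⟩

theorem instCode_eq : instCode = Pool.Agent.H82.SN.instCode := rfl

/-- **Problem BC is NP-hard** under polynomial-time many-one reductions. -/
theorem result : NPHard BC := by
  intro L hL
  obtain ⟨f, ⟨hf⟩, hwf, hfx⟩ := Pool.Agent.H77.BC.bc_npHardOn L hL
  refine ⟨fun x => instCode (f x),
    ⟨{ tm := hf.tm, inputAlphabet := hf.inputAlphabet, outputAlphabet := hf.outputAlphabet,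
       time := hf.time, outputsFun := hf.outputsFun }⟩, fun x => ?_⟩
  have h1 : x ∈ L ↔ Pool.Agent.H77.BC.bc (graphOf (f x)) ≤ (f x).2.2 := hfx x
  rw [h1]
  constructor
  · intro h
    exact ⟨f x, hwf x, h, rfl⟩
  · rintro ⟨I, -, hle, he⟩
    have := Pool.Agent.H82.SN.instCode_injective he
    rw [this]
    exact hle

end Pool.Agent.Results.MP_b99905_lc.BundledCrossingHard
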